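import Pool.Agent.H37.CA.Defs

/-!
# Central values of the Artin L-functions of the Galois group of a ray class field: targets
-/

set_option autoImplicit false

open NumberField Complex Filter Topology

namespace Pool.Agent.H37.CA

open Pool.Agent.H28.RC Pool.Agent.H25 Pool.Agent.H25.HK Pool.Agent.H37.CV

/-! ### Groups -/

/-- (MUL) the multiplicities. -/
def T_MUL : Prop :=
  ∀ (G : Type) [Group G] [Finite G] (A : Subgroup G) [A.Normal], (∀ a ∈ A, ∀ b ∈ A, a * b = b * a) →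
    ∀ f ∈ Irr G, (∀ φ : A →* ℂˣ, ∃ n : ℕ, mlt A φ f = n) ∧ (∃ φ : A →* ℂˣ, mlt A φ f ≠ 0) ∧
      ∀ (φ φ' : A →* ℂˣ) (g : G), (∀ (a : A) (h : g⁻¹ * a * g ∈ A), φ' a = φ ⟨g⁻¹ * a * g, h⟩) →
        mlt A φ' f = mlt A φ f

/-- (BES) Bessel's inequality. -/
def T_BES : Prop :=
  ∀ (G : Type) [Group G] [Finite G] (A : Subgroup G) [A.Normal], (∀ a ∈ A, ∀ b ∈ A, a * b = b * a) →
    ∀ (φ : A →* ℂˣ) (T : Finset (G → ℂ)), (∀ f ∈ T, f ∈ Irr G) →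
      ∑ f ∈ T, ‖mlt A φ f‖ ^ 2 ≤ A.index ∧ (φ ∈ Gen A → ∑ f ∈ T, ‖mlt A φ f‖ ^ 2 ≤ 1)

/-- (GCT) the number of irreducible characters. -/
def T_GCT : Prop :=
  ∀ (G : Type) [Group G] [Finite G] (A : Subgroup G) [A.Normal], (∀ a ∈ A, ∀ b ∈ A, a * b = b * a) →
    (Irr G).Finite ∧ A.index * (Irr G).ncard ≤ (Gen A).ncard + A.index ^ 2 * (Gen A)ᶜ.ncard

/-- (IIR) irreducible induced characters. -/
def T_IIR : Prop :=
  ∀ (G : Type) [Group G] [Finite G] (A : Subgroup G) [A.Normal], (∀ a ∈ A, ∀ b ∈ A, a * b = b * a) →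
    ∀ φ ∈ Gen A, indc A φ ∈ Irr G ∧ indc A φ 1 = A.index

/-- (FIB) characters with the same induced character. -/
def T_FIB : Prop :=
  ∀ (G : Type) [Group G] [Finite G] (A : Subgroup G) [A.Normal], (∀ a ∈ A, ∀ b ∈ A, a * b = b * a) →
    ∀ S : Set (A →* ℂˣ), S.ncard ≤ A.index * ((fun φ => indc A φ) '' S).ncard

/-! ### Fields -/

/-- (GRF) the Galois groups. -/
def T_GRF : Prop :=
  ∀ (F L : Type) [Field F] [NumberField F] [Field L] [NumberField L] [Algebra F L]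
    [IsGalois ℚ F] [IsGalois ℚ L],
    (HF F L).Normal ∧ (HF F L).index = Module.finrank ℚ F ∧
    (∀ h ∈ HF F L, ∃ g : L ≃ₐ[F] L, g.restrictScalars ℚ = h) ∧
    (∀ g : L ≃ₐ[F] L, g.restrictScalars ℚ ∈ HF F L) ∧
    ∀ g : L ≃ₐ[ℚ] L, g ∉ HF F L → ∃ σ : F ≃ₐ[ℚ] F, σ ≠ 1 ∧
      ∀ x : F, g (algebraMap F L x) = algebraMap F L (σ x)

/-- (COM) the Galois group of a ray class field is commutative. -/
def T_COM : Prop :=
  ∀ (F L : Type) [Field F] [NumberField F] [Field L] [NumberField L] [Algebra F L]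
    [IsGalois ℚ F] [IsGalois ℚ L] (m : Ideal (𝓞 F)), IsRCF F L m →
    ∀ a ∈ HF F L, ∀ b ∈ HF F L, a * b = b * a

/-- (COR) the correspondence of the characters. -/
def T_COR : Prop :=
  ∀ (F L : Type) [Field F] [NumberField F] [Field L] [NumberField L] [Algebra F L]
    [IsTotallyComplex F] [IsGalois ℚ F] [IsGalois ℚ L] (m : Ideal (𝓞 F)), m ≠ ⊥ → m ≠ ⊤ →
    IsRCF F L m → ∃ β, Cor F L m β

/-- (NGN) the characters which are equal to a conjugate. -/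
def T_NGN : Prop :=
  ∀ (F L : Type) [Field F] [NumberField F] [Field L] [NumberField L] [Algebra F L]
    [IsTotallyComplex F] [IsGalois ℚ F] [IsGalois ℚ L] (q : ℕ), q.Prime →
    ∀ β : (Ideal (𝓞 F) → ℂ) → (HF F L →* ℂˣ), Cor F L (qi F q) β →
    ∀ ψ ∈ Ch (qi F q) (qi F q), β ψ ∉ Gen (HF F L) →
      ∃ σ : F ≃ₐ[ℚ] F, σ ≠ 1 ∧ ∀ I : Ideal (𝓞 F), ψ (cj σ I) = ψ I

/-- (FXP) fixed points modulo `q`. -/
def T_FXP : Prop :=
  ∀ (F : Type) [Field F] [NumberField F] [IsGalois ℚ F] (q : ℕ), q.Prime →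
    Module.finrank ℚ F < q → ∀ σ : F ≃ₐ[ℚ] F, σ ≠ 1 →
    {y : 𝓞 F ⧸ qi F q | ∃ x : 𝓞 F, Ideal.Quotient.mk (qi F q) x = y ∧ σ • x - x ∈ qi F q}.ncard ^ 2 ≤
      q ^ Module.finrank ℚ F

/-- (CFX) the number of the characters fixed by `σ`. -/
def T_CFX : Prop :=
  ∀ (F : Type) [Field F] [NumberField F] [IsTotallyComplex F] [IsGalois ℚ F], ∃ C : ℝ,
    ∀ q : ℕ, q.Prime → Module.finrank ℚ F < q → ∀ σ : F ≃ₐ[ℚ] F, σ ≠ 1 →
    ({ψ | ψ ∈ Ch (qi F q) (qi F q) ∧ ∀ I : Ideal (𝓞 F), ψ (cj σ I) = ψ I}.ncard : ℝ) ≤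
      C * (q : ℝ) ^ ((Module.finrank ℚ F : ℝ) / 2)

/-! ### L-functions -/

/-- (TRN) ray class characters of isomorphic fields. -/
def T_TRN : Prop :=
  ∀ (F E : Type) [Field F] [NumberField F] [Field E] [NumberField E] [IsTotallyComplex F]
    (e : F ≃+* E) (χ : RCC F), IsTotallyComplex E ∧ ∃ χ' : RCC E,
    (∀ I : Ideal (𝓞 E), χ'.ψ I = χ.ψ (I.comap (RingOfIntegers.mapRingHom (e : F →+* E)))) ∧
      ∀ s : ℂ, Lc χ' s = Lc χ s

/-- (EUP) the Euler product of an Artin `L`-function from ray class characters. -/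
def T_EUP : Prop :=
  ∀ (R : DL.ArtinRep) (D : Cmp R) (s : ℂ), 1 < s.re →
    HasProd (fun p => R.euler p s) (∏ i, Lc (D.χ i) s ^ D.n i)

/-- (ALH) the Artin `L`-function of an induced character; fixed fields. -/
def T_ALH : Prop :=
  ∀ (L : Type) [Field L] [NumberField L] [IsGalois ℚ L] (H : Subgroup (L ≃ₐ[ℚ] L))
    (lam : H →* ℂˣ) (χ : RCC (IntermediateField.fixedField H)) (B : Finset ℕ),
    IsTotallyComplex (IntermediateField.fixedField H) →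
    (∀ P : Ideal (𝓞 (IntermediateField.fixedField H)), P.IsPrime → P ≠ ⊥ →
      (∀ p : ℕ, p.Prime → p ∈ B → (p : 𝓞 (IntermediateField.fixedField H)) ∉ P) →
      ∀ (h : L ≃ₐ[IntermediateField.fixedField H] L) (hm : h.restrictScalars ℚ ∈ H), Fro P h →
        χ.ψ P = ((lam ⟨h.restrictScalars ℚ, hm⟩ : ℂˣ) : ℂ)) →
    ∀ (D : Frb L) (V : Type) [AddCommGroup V] [Module ℂ V] [FiniteDimensional ℂ V]
      (ρ : Representation ℂ (L ≃ₐ[ℚ] L) V), (∀ g, ρ.character g = indc H lam g) →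
      ∀ s : ℂ, 1 < s.re → HasProd (fun p => (D.rep V ρ).euler p s) (Lc χ s)

/-- (ALF) the Artin `L`-function of an induced character. -/
def T_ALF : Prop :=
  ∀ (F L : Type) [Field F] [NumberField F] [Field L] [NumberField L] [Algebra F L]
    [IsTotallyComplex F] [IsGalois ℚ F] [IsGalois ℚ L] (m : Ideal (𝓞 F)) (χ : RCC F)
    (φ : HF F L →* ℂˣ), m ≠ ⊥ →
    (∀ (P : Ideal (𝓞 F)) (g : L ≃ₐ[F] L) (h : HF F L), P ⊔ m = ⊤ → Fro P g →
      (h : L ≃ₐ[ℚ] L) = g.restrictScalars ℚ → χ.ψ P = ((φ h : ℂˣ) : ℂ)) →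
    ∀ (D : Frb L) (V : Type) [AddCommGroup V] [Module ℂ V] [FiniteDimensional ℂ V]
      (ρ : Representation ℂ (L ≃ₐ[ℚ] L) V), (∀ g, ρ.character g = indc (HF F L) φ g) →
      ∀ s : ℂ, 1 < s.re → HasProd (fun p => (D.rep V ρ).euler p s) (Lc χ s)

/-! ### The count -/

/-- (PNC) almost all characters are primitive. -/
def T_PNC : Prop :=
  ∀ (K : Type) [Field K] [NumberField K] [IsCMField K] (ε : ℝ), 0 < ε → ∃ q₀ : ℕ,
    ∀ q : ℕ, q.Prime → q₀ ≤ q →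
      (1 - ε) * (nc (qi K q) (qi K q) : ℝ) ≤ ((Pr K (qi K q)).ncard : ℝ)

/-- (CNT) few characters are equal to a conjugate. -/
def T_CNT : Prop :=
  ∀ (F : Type) [Field F] [NumberField F] [IsCMField F] [IsGalois ℚ F] (ε : ℝ), 0 < ε →
    ∃ q₀ : ℕ, ∀ q : ℕ, q.Prime → q₀ ≤ q → ∀ (L : Type) [Field L] [NumberField L] [Algebra F L]
      [IsGalois ℚ L] (β : (Ideal (𝓞 F) → ℂ) → (HF F L →* ℂˣ)), Cor F L (qi F q) β →
      ((Gen (HF F L))ᶜ.ncard : ℝ) ≤ ε * nc (qi F q) (qi F q) ∧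
        (Nat.card (HF F L →* ℂˣ) : ℝ) = nc (qi F q) (qi F q)

/-- (FIA) the proportion of the irreducible characters. -/
def T_FIA : Prop :=
  ∀ (F : Type) [Field F] [NumberField F] [IsCMField F] [IsGalois ℚ F] (ε : ℝ), 0 < ε →
    ∃ q₀ : ℕ, ∀ q : ℕ, q.Prime → q₀ ≤ q → ∀ (L : Type) [Field L] [NumberField L] [Algebra F L]
      [IsGalois ℚ L], IsRCF F L (qi F q) → ∀ D : Frb L, (Irr (L ≃ₐ[ℚ] L)).Finite ∧
      (1 / ((Module.finrank ℚ F : ℝ) + 1) - ε) * (Irr (L ≃ₐ[ℚ] L)).ncard ≤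
        ({f | f ∈ Irr (L ≃ₐ[ℚ] L) ∧ f 1 = Module.finrank ℚ F ∧ NV D f}.ncard : ℝ)

end Pool.Agent.H37.CA
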