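import Pool.Agent.H28.RC.Final
import Pool.Agent.H1.CA.GRF
import Pool.Agent.H3.CA.MUL
import Pool.Agent.H8.CA.FXP
import Pool.Agent.H19.CA.ALH
import Pool.Agent.H22.CA.BES
import Pool.Agent.H22.CA.Mono
import Pool.Agent.H25.CA.ALF
import Pool.Agent.H25.CA.EUP
import Pool.Agent.H42.CA.COM
import Pool.Agent.H45.CA.COR
import Pool.Agent.H46.CA.NGN
import Pool.Agent.H46.CA.NGY
import Pool.Agent.H49.CA.CFX
import Pool.Agent.H50.CA.CFY
import Pool.Agent.H51.CA.TRN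
import Pool.Agent.H66.CA.FSI
import Pool.Agent.H66.CA.FXY

/-!
# The Galois group of a ray class field: closed forms of the algebraic modules
-/

set_option autoImplicit false

namespace Pool.Agent.H37.CA

open Pool.Agent.H28.RC Pool.Agent.H25.HK Pool.Agent.H37.CV

theorem a_GRF : T_GRF := Pool.Agent.H1.CA.pf_GRF
theorem a_COM : T_COM := Pool.Agent.H42.CA.pf_COM a_GRF
theorem a_COR : T_COR := Pool.Agent.H45.CA.pf_COR a_GRF
theorem a_NGN : T_NGN := Pool.Agent.H46.CA.pf_NGN a_GRF c_FRE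
theorem a_NGY : T_NGY := Pool.Agent.H46.CA.pf_NGY a_GRF c_FRE
theorem a_FXP : T_FXP := Pool.Agent.H8.CA.pf_FXP
theorem a_FXY : T_FXY := Pool.Agent.H66.CA.pf_FXY a_FXP
theorem a_CFX : T_CFX := Pool.Agent.H49.CA.pf_CFX a_FXP
theorem a_CFY : T_CFY := Pool.Agent.H50.CA.pf_CFY a_FXY
theorem a_MUL : T_MUL := Pool.Agent.H3.CA.pf_MUL
theorem a_BES : T_BES := Pool.Agent.H22.CA.pf_BES
theorem a_GCT : T_GCT := Pool.Agent.H22.CA.pf_GCT a_MUL a_BES
theorem a_IIR : T_IIR := Pool.Agent.H22.CA.pf_IIR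
theorem a_FIB : T_FIB := Pool.Agent.H22.CA.pf_FIB
theorem a_FSI : T_FSI := Pool.Agent.H66.CA.pf_FSI
theorem a_TRN : T_TRN := Pool.Agent.H51.CA.pf_TRN
theorem a_EUP : T_EUP :=
  Pool.Agent.H25.CA.pf_EUP c_EP T_CM3_proved Pool.Agent.H11.HK.lp Pool.Agent.H11.HK.pw
    Pool.Agent.H48.DL.al
theorem a_ALH : T_ALH :=
  Pool.Agent.H19.CA.pf_ALH a_EUP c_RC2 T_FNR_proved Pool.Agent.H11.HK.tr
theorem a_ALF : T_ALF := Pool.Agent.H25.CA.pf_ALF a_TRN a_ALH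

end Pool.Agent.H37.CA
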