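import Pool.Agent.H37.CV.All
import Pool.Agent.H37.CA.Base
import Pool.Agent.H37.CA.FI3
import Pool.Agent.H1.CA.CNU
import Pool.Agent.H46.CA.PNC

/-!
# Central values of the Artin L-functions of the Galois group of a ray class field: assembly
-/

set_option autoImplicit false

namespace Pool.Agent.H37.CA

open Pool.Agent.H28.RC Pool.Agent.H25.HK Pool.Agent.H37.CV

theorem a_CNT : T_CNT := Pool.Agent.H46.CA.pf_CNT a_NGN a_CFX a_OR a_HQ
theorem a_CNU : T_CNU := Pool.Agent.H1.CA.pf_CNU a_NGY a_CFY a_HQ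
theorem a_PNC : T_PNC := Pool.Agent.H46.CA.pf_PNC a_IE a_HQ

/-- the proportion of the unitary irreducible characters `χ` of the Galois group of the ray class
field modulo `q` of a Galois CM field with `L(1/2, χ) ≠ 0` -/
theorem FI3_proved : T_FI3 :=
  pf_FI3 a_FSI a_CNU a_GCT a_IIR a_FIB a_GRF a_COM a_COR a_CNT a_PNC a_ALF FIN_proved a_OR

end Pool.Agent.H37.CA
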