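import Pool.Agent.H37.CA.Targets

/-!
# Central values of the Artin L-functions of the Galois group of a ray class field: targets, part 2
(unitary characters)
-/

set_option autoImplicit false

open NumberField Complex Filter Topology

namespace Pool.Agent.H37.CA

open Pool.Agent.H28.RC Pool.Agent.H25 Pool.Agent.H25.HK Pool.Agent.H37.CV

/-- the Frobenius-Schur indicator -/
noncomputable def nu {G : Type} [Group G] (f : G → ℂ) : ℂ :=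
  (Nat.card G : ℂ)⁻¹ * ∑ᶠ g : G, f (g ^ 2)

/-- the characters of `A` whose inverse is not one of their conjugates -/
def Nsd {G : Type} [Group G] (A : Subgroup G) : Set (A →* ℂˣ) :=
  {φ | ∀ g : G, ∃ (a : A) (h : g⁻¹ * a * g ∈ A), φ ⟨g⁻¹ * a * g, h⟩ * φ a ≠ 1}

/-- (FSI) the Frobenius-Schur indicator of an induced character. -/
def T_FSI : Prop :=
  ∀ (G : Type) [Group G] [Finite G] (A : Subgroup G) [A.Normal], (∀ a ∈ A, ∀ b ∈ A, a * b = b * a) →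
    ∀ φ ∈ Nsd A, nu (fun g => indc A φ g) = 0

/-- (NGY) the characters whose inverse is a conjugate. -/
def T_NGY : Prop :=
  ∀ (F L : Type) [Field F] [NumberField F] [Field L] [NumberField L] [Algebra F L]
    [IsTotallyComplex F] [IsGalois ℚ F] [IsGalois ℚ L] (q : ℕ), q.Prime →
    ∀ β : (Ideal (𝓞 F) → ℂ) → (HF F L →* ℂˣ), Cor F L (qi F q) β →
    ∀ ψ ∈ Ch (qi F q) (qi F q), β ψ ∉ Nsd (HF F L) →
      ∃ σ : F ≃ₐ[ℚ] F, ∀ I : Ideal (𝓞 F), I ≠ ⊥ → I ⊔ qi F q = ⊤ → ψ (cj σ I) * ψ I = 1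

/-- (FXY) the residue classes `y` modulo `q` with `σ(y) y = 1`. -/
def T_FXY : Prop :=
  ∀ (F : Type) [Field F] [NumberField F] [IsGalois ℚ F], ∃ q₀ : ℕ, ∀ q : ℕ, q.Prime → q₀ ≤ q →
    ∀ σ : F ≃ₐ[ℚ] F,
    {y : 𝓞 F ⧸ qi F q | ∃ x : 𝓞 F, Ideal.Quotient.mk (qi F q) x = y ∧
      (σ • x) * x - 1 ∈ qi F q}.ncard ^ 2 ≤ 4 ^ Module.finrank ℚ F * q ^ Module.finrank ℚ F

/-- (CFY) the number of the characters `ψ` with `ψ^σ ψ = 1`. -/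
def T_CFY : Prop :=
  ∀ (F : Type) [Field F] [NumberField F] [IsTotallyComplex F] [IsGalois ℚ F], ∃ (C : ℝ) (q₀ : ℕ),
    ∀ q : ℕ, q.Prime → q₀ ≤ q → ∀ σ : F ≃ₐ[ℚ] F,
    ({ψ | ψ ∈ Ch (qi F q) (qi F q) ∧ ∀ I : Ideal (𝓞 F), I ≠ ⊥ → I ⊔ qi F q = ⊤ →
      ψ (cj σ I) * ψ I = 1}.ncard : ℝ) ≤ C * (q : ℝ) ^ ((Module.finrank ℚ F : ℝ) / 2)

/-- (CNU) few characters have an inverse which is a conjugate. -/
def T_CNU : Prop :=
  ∀ (F : Type) [Field F] [NumberField F] [IsCMField F] [IsGalois ℚ F] (ε : ℝ), 0 < ε →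
    ∃ q₀ : ℕ, ∀ q : ℕ, q.Prime → q₀ ≤ q → ∀ (L : Type) [Field L] [NumberField L] [Algebra F L]
      [IsGalois ℚ L] (β : (Ideal (𝓞 F) → ℂ) → (HF F L →* ℂˣ)), Cor F L (qi F q) β →
      ((Nsd (HF F L))ᶜ.ncard : ℝ) ≤ ε * nc (qi F q) (qi F q)

/-- (FI2) the proportion of the irreducible characters, with unitary characters. -/
def T_FI2 : Prop :=
  ∀ (F : Type) [Field F] [NumberField F] [IsCMField F] [IsGalois ℚ F] (ε : ℝ), 0 < ε →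
    ∃ q₀ : ℕ, ∀ q : ℕ, q.Prime → q₀ ≤ q → ∀ (L : Type) [Field L] [NumberField L] [Algebra F L]
      [IsGalois ℚ L], IsRCF F L (qi F q) → ∀ D : Frb L, (Irr (L ≃ₐ[ℚ] L)).Finite ∧
      (1 / ((Module.finrank ℚ F : ℝ) + 1) - ε) * (Irr (L ≃ₐ[ℚ] L)).ncard ≤
        ({f | f ∈ Irr (L ≃ₐ[ℚ] L) ∧ f 1 = Module.finrank ℚ F ∧ nu f = 0 ∧ NV D f}.ncard : ℝ)

end Pool.Agent.H37.CA
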