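import Pool.Agent.H37.CV.Targets
import Pool.Agent.H28.RC.Interface
import Pool.Agent.H28.RC.Targets2

/-!
# Central values of the Artin L-functions of the Galois group of a ray class field: definitions
-/

set_option autoImplicit false

open NumberField Complex Filter Topology

namespace Pool.Agent.H37.CA

open Pool.Agent.H28.RC Pool.Agent.H25 Pool.Agent.H37.CV

/-- the irreducible complex characters of `G` -/
def Irr (G : Type) [Group G] : Set (G → ℂ) :=
  {f | ∃ (V : Type) (_ : AddCommGroup V) (_ : Module ℂ V) (_ : FiniteDimensional ℂ V)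
    (ρ : Representation ℂ G V), ρ.IsIrreducible ∧ f = ρ.character}

/-- `L` is the ray class field of `F` modulo `m`: the Artin map `θ`, which sends a prime ideal to
its Frobenius element, is a surjective homomorphism of the ideals prime to `m` to the Galois group
of `L/F`, and its kernel consists of the principal ideals with a generator congruent to `1`
modulo `m`. -/
def IsRCF (F L : Type) [Field F] [NumberField F] [Field L] [NumberField L] [Algebra F L]
    (m : Ideal (𝓞 F)) : Prop :=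
  ∃ θ : Ideal (𝓞 F) → (L ≃ₐ[F] L),
    (∀ I J : Ideal (𝓞 F), I ≠ ⊥ → J ≠ ⊥ → I ⊔ m = ⊤ → J ⊔ m = ⊤ → θ (I * J) = θ I * θ J) ∧
    (∀ (P : Ideal (𝓞 F)) (g : L ≃ₐ[F] L), P ⊔ m = ⊤ → Fro P g → g = θ P) ∧
    (∀ g : L ≃ₐ[F] L, ∃ I : Ideal (𝓞 F), I ≠ ⊥ ∧ I ⊔ m = ⊤ ∧ θ I = g) ∧
    ∀ I : Ideal (𝓞 F), I ≠ ⊥ → I ⊔ m = ⊤ →
      (θ I = 1 ↔ ∃ a : 𝓞 F, a - 1 ∈ m ∧ I = Ideal.span {a})

/-- a prime ideal above every prime number and a Frobenius element for it -/
structure Frb (L : Type) [Field L] [NumberField L] where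
  P : Nat.Primes → Ideal (𝓞 L)
  P_prime : ∀ p, (P p).IsPrime
  P_mem : ∀ p : Nat.Primes, ((p : ℕ) : 𝓞 L) ∈ P p
  Fr : Nat.Primes → (L ≃ₐ[ℚ] L)
  Fr_spec : ∀ (p : Nat.Primes) (x : 𝓞 L), Fr p • x - x ^ (p : ℕ) ∈ P p

/-- the representation `ρ` of the Galois group of `L/ℚ` with the Frobenius elements of `D` -/
noncomputable def Frb.rep {L : Type} [Field L] [NumberField L] [IsGalois ℚ L] (D : Frb L)
    (V : Type) [AddCommGroup V] [Module ℂ V] [FiniteDimensional ℂ V]
    (ρ : Representation ℂ (L ≃ₐ[ℚ] L) V) : DL.ArtinRep where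
  K := L
  fK := inferInstance
  nK := inferInstance
  gK := inferInstance
  V := V
  aV := inferInstance
  mV := inferInstance
  dV := inferInstance
  rho := ρ
  P := D.P
  P_prime := D.P_prime
  P_mem := D.P_mem
  Fr := D.Fr
  Fr_spec := D.Fr_spec

/-- the Artin `L`-function of every representation with the character `f` is entire and does not
vanish at `1/2` -/
def NV {L : Type} [Field L] [NumberField L] [IsGalois ℚ L] (D : Frb L)
    (f : (L ≃ₐ[ℚ] L) → ℂ) : Prop :=
  ∀ (V : Type) [AddCommGroup V] [Module ℂ V] [FiniteDimensional ℂ V]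
    (ρ : Representation ℂ (L ≃ₐ[ℚ] L) V), f = ρ.character →
    ∃ Λ : ℂ → ℂ, Differentiable ℂ Λ ∧
      (∀ s : ℂ, 1 < s.re → HasProd (fun p => (D.rep V ρ).euler p s) (Λ s)) ∧ Λ (1 / 2) ≠ 0

/-! ### Groups -/

/-- the characters of `A` which are different from all their conjugates -/
def Gen {G : Type} [Group G] (A : Subgroup G) : Set (A →* ℂˣ) :=
  {φ | ∀ g : G, g ∉ A → ∃ (a : A) (h : g⁻¹ * a * g ∈ A), φ ⟨g⁻¹ * a * g, h⟩ ≠ φ a}

/-- the multiplicity of `φ` in the restriction of `f` -/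
noncomputable def mlt {G : Type} [Group G] (A : Subgroup G) (φ : A →* ℂˣ) (f : G → ℂ) : ℂ :=
  (Nat.card A : ℂ)⁻¹ * ∑ᶠ a : A, f (a : G) * ((φ a⁻¹ : ℂˣ) : ℂ)

/-! ### Fields -/

/-- the elements of the Galois group of `L/ℚ` which fix `F` -/
def HF (F L : Type) [Field F] [NumberField F] [Field L] [NumberField L] [Algebra F L] :
    Subgroup (L ≃ₐ[ℚ] L) where
  carrier := {g | ∀ x : F, g (algebraMap F L x) = algebraMap F L x}
  one_mem' := fun _ => rfl
  mul_mem' := by
    intro a b ha hb x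
    rw [AlgEquiv.mul_apply, hb x, ha x]
  inv_mem' := by
    intro a ha x
    have h := congrArg (a⁻¹ : L ≃ₐ[ℚ] L) (ha x)
    rw [← AlgEquiv.mul_apply, inv_mul_cancel, AlgEquiv.one_apply] at h
    exact h.symm

/-- the conjugate of an ideal -/
noncomputable def cj {F : Type} [Field F] [NumberField F] (σ : F ≃ₐ[ℚ] F) (I : Ideal (𝓞 F)) :
    Ideal (𝓞 F) :=
  I.map (MulSemiringAction.toRingHom (F ≃ₐ[ℚ] F) (𝓞 F) σ)

/-- `β` is the correspondence between the ray class characters modulo `m` and the characters of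
the Galois group of `L/F` -/
def Cor (F L : Type) [Field F] [NumberField F] [Field L] [NumberField L] [Algebra F L]
    (m : Ideal (𝓞 F)) (β : (Ideal (𝓞 F) → ℂ) → (HF F L →* ℂˣ)) : Prop :=
  Set.BijOn β (Ch m m) Set.univ ∧ ∀ ψ ∈ Ch m m, ∀ (P : Ideal (𝓞 F)) (g : L ≃ₐ[F] L)
    (h : HF F L), P ⊔ m = ⊤ → Fro P g → (h : L ≃ₐ[ℚ] L) = g.restrictScalars ℚ →
    ψ P = ((β ψ h : ℂˣ) : ℂ)

end Pool.Agent.H37.CA
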