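import Pool.Agent.H37.CA.Targets
import Pool.Agent.H37.CV.IE
import Pool.Agent.H37.CV.FIN

/-!
# The proportion of the irreducible characters with a non-vanishing central value
-/

set_option autoImplicit false

open NumberField Complex Filter Topology

namespace Pool.Agent.H37.CA

open Pool.Agent.H28.RC Pool.Agent.H25 Pool.Agent.H25.HK Pool.Agent.H37.CV

/-- the choice of the parameter -/
theorem choice_e (d ε : ℝ) (hε : 0 < ε) : ∃ t : ℝ, 0 < t ∧ t < 1 ∧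
    (1 / (d + 1) - ε) * (1 + d ^ 2 * t) ≤ (1 / (d + 1) - t) * (1 - t) - t := by
  have h1 : ContinuousAt (fun t : ℝ => (1 / (d + 1) - t) * (1 - t) - t -
      (1 / (d + 1) - ε) * (1 + d ^ 2 * t)) 0 := by fun_prop
  have h2 : (0 : ℝ) < (fun t : ℝ => (1 / (d + 1) - t) * (1 - t) - t -
      (1 / (d + 1) - ε) * (1 + d ^ 2 * t)) 0 := by
    simp only [mul_zero, sub_zero, add_zero, mul_one]
    linarith
  have h5 : ∀ᶠ t : ℝ in 𝓝 0, 0 < (1 / (d + 1) - t) * (1 - t) - t -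
      (1 / (d + 1) - ε) * (1 + d ^ 2 * t) := h1.eventually (lt_mem_nhds h2)
  have h6 : ∀ᶠ t : ℝ in 𝓝[>] 0, 0 < t ∧ t < 1 := by
    have := Ioo_mem_nhdsGT (show (0 : ℝ) < 1 by norm_num)
    filter_upwards [this] with t ht using ht
  obtain ⟨t, h7, h8, h9⟩ := ((h5.filter_mono nhdsWithin_le_nhds).and h6).exists
  exact ⟨t, h8, h9, by linarith⟩

open scoped Classical in
theorem pf_FIA (hGCT : T_GCT) (hIIR : T_IIR) (hFIB : T_FIB) (hGRF : T_GRF) (hCOM : T_COM)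
    (hCOR : T_COR) (hCNT : T_CNT) (hPNC : T_PNC) (hALF : T_ALF) (hFIN : T_FIN) (hOR : T_OR) :
    T_FIA := by
  intro F _ _ _ _ ε hε
  set d : ℕ := Module.finrank ℚ F with hd
  have hd0 : 0 < d := Module.finrank_pos
  have hd1 : (1 : ℝ) ≤ d := by exact_mod_cast hd0
  obtain ⟨t, ht0, ht1, ht2⟩ := choice_e d ε hε
  obtain ⟨q₁, hq1⟩ := hFIN F t ht0
  obtain ⟨q₂, hq2⟩ := hPNC F t ht0
  obtain ⟨q₃, hq3⟩ := hCNT F t ht0
  refine ⟨max q₁ (max q₂ q₃), fun q hq hqq L _ _ _ _ hL D => ?_⟩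
  have hqa : q₁ ≤ q := (le_max_left _ _).trans hqq
  have hqb : q₂ ≤ q := ((le_max_left _ _).trans (le_max_right _ _)).trans hqq
  have hqc : q₃ ≤ q := ((le_max_right _ _).trans (le_max_right _ _)).trans hqq
  have hm : qi F q ≠ ⊥ := qi_ne_bot F q hq
  have hmt : qi F q ≠ ⊤ := qi_ne_top F q hq
  obtain ⟨β, hβ⟩ := hCOR F L (qi F q) hm hmt hL
  obtain ⟨hnorm, hidx, hlift, hres, -⟩ := hGRF F L
  haveI := hnorm
  have hcom := hCOM F L (qi F q) hL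
  obtain ⟨hc1, hc2⟩ := hq3 q hq hqc L β hβ
  set N : ℝ := (nc (qi F q) (qi F q) : ℝ) with hN
  have hb := hq2 q hq hqb
  obtain ⟨hPf, hPn, hex, ha⟩ := hq1 q hq hqa
  have hChf := (hOR F (qi F q) (qi F q) hm le_rfl).1
  have hNpos : 0 < N := by
    have := (hOR F (qi F q) (qi F q) hm le_rfl).2.1
    rw [hN]; exact_mod_cast this
  obtain ⟨hIf, hIc⟩ := hGCT (L ≃ₐ[ℚ] L) (HF F L) hcom
  refine ⟨hIf, ?_⟩
  haveI hfinhom : Finite (HF F L →* ℂˣ) := by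
    have : (Set.univ : Set (HF F L →* ℂˣ)).Finite := by
      rw [← hβ.1.image_eq]
      exact hChf.image β
    exact Set.finite_univ_iff.1 this
  -- the good characters
  set Y : Set (RCC F) := {χ | χ ∈ Pr F (qi F q) ∧ ∀ Z, IsEnt χ Z → Z (1 / 2) ≠ 0} with hY
  set S : Set (HF F L →* ℂˣ) := (fun χ : RCC F => β χ.ψ) '' Y ∩ Gen (HF F L) with hS
  have hbij := bij_Pr hm hmt
  have hinj : Set.InjOn (fun χ : RCC F => β χ.ψ) Y := by
    intro χ hχ χ' hχ' h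
    refine hbij.injOn hχ.1 hχ'.1 ?_
    exact hβ.1.injOn (hbij.mapsTo hχ.1).1 (hbij.mapsTo hχ'.1).1 h
  have hYf : Y.Finite := hPf.subset fun χ h => h.1
  have hYS : (Y.ncard : ℝ) ≤ S.ncard + (Gen (HF F L))ᶜ.ncard := by
    rw [← hinj.ncard_image]
    have h1 : (fun χ : RCC F => β χ.ψ) '' Y ⊆ S ∪ (Gen (HF F L))ᶜ := by
      intro φ hφ
      by_cases h2 : φ ∈ Gen (HF F L)
      · exact Or.inl ⟨hφ, h2⟩
      · exact Or.inr h2
    have h2 := (Set.ncard_le_ncard h1 (Set.toFinite _)).trans (Set.ncard_union_le _ _)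
    exact_mod_cast h2
  have hSlow : ((1 / ((d : ℝ) + 1) - t) * (1 - t) - t) * N ≤ S.ncard := by
    by_cases h0 : 1 / ((d : ℝ) + 1) - t ≤ 0
    · have h1 : ((1 / ((d : ℝ) + 1) - t) * (1 - t) - t) ≤ 0 := by nlinarith
      have h2 : ((1 / ((d : ℝ) + 1) - t) * (1 - t) - t) * N ≤ 0 :=
        mul_nonpos_of_nonpos_of_nonneg h1 hNpos.le
      exact h2.trans (Nat.cast_nonneg _)
    · rw [not_le] at h0
      have h1 : (1 / ((d : ℝ) + 1) - t) * ((1 - t) * N) ≤ Y.ncard :=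
        (mul_le_mul_of_nonneg_left hb h0.le).trans ha
      have h2 := hYS
      nlinarith
  -- the induced characters
  set W : Set ((L ≃ₐ[ℚ] L) → ℂ) := {f | f ∈ Irr (L ≃ₐ[ℚ] L) ∧ f 1 = (d : ℂ) ∧ NV D f} with hW
  have hSW : (fun φ => indc (HF F L) φ) '' S ⊆ W := by
    rintro f ⟨φ, ⟨⟨χ, hχ, rfl⟩, hgen⟩, rfl⟩
    obtain ⟨h1, h2⟩ := hIIR (L ≃ₐ[ℚ] L) (HF F L) hcom (β χ.ψ) hgen
    refine ⟨h1, ?_, ?_⟩
    · change indc (HF F L) (β χ.ψ) 1 = (d : ℂ)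
      rw [h2, hidx]
    · intro V _ _ _ ρ hρ
      obtain ⟨Z, hZ⟩ := hex χ hχ.1
      refine ⟨Z, hZ.1, fun s hs => ?_, hχ.2 Z hZ⟩
      rw [hZ.2 s hs]
      refine hALF F L (qi F q) χ (β χ.ψ) hm ?_ D V ρ (fun g => (congrFun hρ g).symm) s hs
      intro P g h hP hg hh
      exact hβ.2 χ.ψ (hbij.mapsTo hχ.1).1 P g h hP hg hh
  have hWf : W.Finite := hIf.subset fun f h => h.1
  have h3 : (S.ncard : ℝ) ≤ d * W.ncard := by
    have h4 := hFIB (L ≃ₐ[ℚ] L) (HF F L) hcom S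
    rw [hidx] at h4
    have h5 := Set.ncard_le_ncard hSW hWf
    have h6 : S.ncard ≤ d * W.ncard := h4.trans (Nat.mul_le_mul_left _ h5)
    exact_mod_cast h6
  have h4 : (d : ℝ) * (Irr (L ≃ₐ[ℚ] L)).ncard ≤ (1 + (d : ℝ) ^ 2 * t) * N := by
    rw [hidx] at hIc
    have h5 : (d : ℝ) * (Irr (L ≃ₐ[ℚ] L)).ncard ≤ (Gen (HF F L)).ncard +
        (d : ℝ) ^ 2 * (Gen (HF F L))ᶜ.ncard := by exact_mod_cast hIc
    have h6 : ((Gen (HF F L)).ncard : ℝ) ≤ N := by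
      rw [← hc2, ← Set.ncard_univ]
      exact_mod_cast Set.ncard_le_ncard (Set.subset_univ _) (Set.toFinite _)
    nlinarith [mul_le_mul_of_nonneg_left hc1 (sq_nonneg (d : ℝ))]
  have hI0 : (0 : ℝ) ≤ (Irr (L ≃ₐ[ℚ] L)).ncard := Nat.cast_nonneg _
  have hd2 : (0 : ℝ) < d := by linarith
  by_cases h0 : 1 / ((d : ℝ) + 1) - ε ≤ 0
  · exact (mul_nonpos_of_nonpos_of_nonneg h0 hI0).trans (Nat.cast_nonneg _)
  · rw [not_le] at h0
    refine le_of_mul_le_mul_left ?_ hd2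
    refine le_trans ?_ h3
    refine le_trans ?_ hSlow
    calc (d : ℝ) * ((1 / ((d : ℝ) + 1) - ε) * (Irr (L ≃ₐ[ℚ] L)).ncard)
        = (1 / ((d : ℝ) + 1) - ε) * (d * (Irr (L ≃ₐ[ℚ] L)).ncard) := by ring
      _ ≤ (1 / ((d : ℝ) + 1) - ε) * ((1 + (d : ℝ) ^ 2 * t) * N) :=
          mul_le_mul_of_nonneg_left h4 h0.le
      _ = ((1 / ((d : ℝ) + 1) - ε) * (1 + (d : ℝ) ^ 2 * t)) * N := by ring
      _ ≤ _ := mul_le_mul_of_nonneg_right ht2 hNpos.le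

end Pool.Agent.H37.CA
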